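import Pool.Agent.Q44.PG.Stm
import Pool.Agent.Q190.SA.NE

/-! # Project PG, job BA: the automorphisms map balls to balls -/

set_option autoImplicit false

namespace Pool.Agent.Q285.PG.BA

open MvPolynomial Pool.Agent.Q44.SA Pool.Agent.Q44.PG Pool.Agent.Q190.SA

theorem eval_map {K F : Type} [Field K] [Field F] {n : ℕ} (σ : K →+* F) (y : Fin n → K) (p : MvPolynomial (Fin n) K) :
    eval₂ σ (σ ∘ y) p = σ (eval₂ (RingHom.id K) y p) := by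
  rw [eval₂_comp_left, RingHom.comp_id]

theorem rel_map {K F : Type} [Field K] [Field F] {n : ℕ} {I : Ideal (MvPolynomial (Fin n) K)} (φ : Mor I) (σ : K →+* F)
    {y y' : Fin n → K} (h : φ.Rel (RingHom.id K) y y') : φ.Rel σ (σ ∘ y) (σ ∘ y') := by
  obtain ⟨l, ⟨a, ha⟩, c, hc, hy⟩ := h
  refine ⟨l, ⟨a, ?_⟩, σ c, ?_, fun b => ?_⟩
  · rw [eval_map]
    exact fun h0 => ha ((map_eq_zero σ).1 h0)
  · exact fun h0 => hc ((map_eq_zero σ).1 h0)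
  · rw [Function.comp_apply, hy b, map_mul, eval_map]

theorem pt_map {K F : Type} [Field K] [Field F] {n : ℕ} {I : Ideal (MvPolynomial (Fin n) K)} (σ : K →+* F)
    {y : Fin n → K} (h : Pt (RingHom.id K) I y) : Pt σ I (σ ∘ y) := by
  refine ⟨fun h0 => h.1 ?_, fun f hf => ?_⟩
  · funext i
    have h1 := congrFun h0 i
    exact (map_eq_zero σ).1 h1
  · rw [eval_map, h.2 f hf, map_zero]

theorem normalise {L : Type} [NormedField L] {n : ℕ} {v : Fin n → L} (hv : v ≠ 0) : ∃ e : L, e ≠ 0 ∧ ‖e • v‖ = 1 := by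
  obtain ⟨k, hk⟩ := Function.ne_iff.1 hv
  have : Nonempty (Fin n) := ⟨k⟩
  obtain ⟨j, -, hj⟩ := Finset.exists_max_image Finset.univ (fun j => ‖v j‖) Finset.univ_nonempty
  have h0 : v j ≠ 0 := by
    intro h
    have h1 := hj k (Finset.mem_univ k)
    rw [h, norm_zero] at h1
    exact hk (norm_le_zero_iff.1 h1)
  have h2 : ‖v‖ = ‖v j‖ := le_antisymm ((pi_norm_le_iff_of_nonneg (norm_nonneg _)).2 fun i => hj i (Finset.mem_univ i)) (norm_le_pi_norm v j)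
  refine ⟨(v j)⁻¹, inv_ne_zero h0, ?_⟩
  rw [norm_smul, norm_inv, h2, inv_mul_cancel₀ (norm_ne_zero_iff.2 h0)]

theorem image {K : Type} [Field K] {n r : ℕ} {L : Fin r → Type} [∀ i, NontriviallyNormedField (L i)]
    [∀ i, IsUltrametricDist (L i)] (σ : ∀ i, K →+* L i) {I : Ideal (MvPolynomial (Fin n) K)} (hI : Homog I) (φ : Mor I)
    (hφ : ∀ i, GoodM φ (σ i)) {ε : ℝ} (hε : 0 < ε) (hε1 : ε < 1) {y z y₁ z₁ : Fin n → K} (hy : Pt (RingHom.id K) I y)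
    (hyz : φ.Rel (RingHom.id K) y z) (h₁ : y₁ ∈ Ball σ I ε fun i => σ i ∘ y) (hyz₁ : φ.Rel (RingHom.id K) y₁ z₁) :
    z₁ ∈ Ball σ I ε fun i => σ i ∘ z := by
  obtain ⟨hp, hcl⟩ := h₁
  have hz₁ := rel_pt hI φ _ hp hyz₁
  have hz := rel_pt hI φ _ hy hyz
  refine ⟨hz₁, fun i => ?_⟩
  obtain ⟨c, c', hc, hc', hcc⟩ := hcl i
  obtain ⟨e, he, hen⟩ := normalise (pt_map (σ i) hz₁).1
  obtain ⟨e', he', hen'⟩ := normalise (pt_map (σ i) hz).1
  have hc0 : c ≠ 0 := by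
    rintro rfl
    rw [zero_smul, norm_zero] at hc
    exact zero_ne_one hc
  have hc0' : c' ≠ 0 := by
    rintro rfl
    rw [zero_smul, norm_zero] at hc'
    exact zero_ne_one hc'
  obtain ⟨s, hs, hss⟩ := nearM K (L i) (σ i) n I φ (hφ i) ε hε hε1 (c • (σ i ∘ y₁)) (c' • (σ i ∘ y)) (e • (σ i ∘ z₁)) (e' • (σ i ∘ z))
    (pt_smul hI (σ i) (pt_map (σ i) hp) hc0) (pt_smul hI (σ i) (pt_map (σ i) hy) hc0') hc hc' hen hen'
    (rel_smul φ (σ i) (rel_map φ (σ i) hyz₁) hc0 he) (rel_smul φ (σ i) (rel_map φ (σ i) hyz) hc0' he')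
    ⟨1, norm_one, by rw [one_smul]; exact hcc⟩
  refine ⟨e, s * e', hen, ?_, ?_⟩
  · rw [← smul_smul, norm_smul, hs, one_mul, hen']
  · rw [← smul_smul]
    exact hss

theorem main (h : P_im) : P_ball := by
  intro K _ _ n r L _ _ σ I hI φ ψ h1 h2 hφ hψ ε hε hε1 y z hy hyz
  have hz := rel_pt hI φ _ hy hyz
  have hzy : ψ.Rel (RingHom.id K) z y := rel_inv φ ψ h1 _ hy hyz hz
  rw [h K n I hI φ (Ball σ I ε fun i => σ i ∘ y) fun y' hy' => hy'.1]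
  have hset : {y' | ∃ y₁ ∈ Ball σ I ε fun i => σ i ∘ y, φ.Rel (RingHom.id K) y₁ y'} = Ball σ I ε fun i => σ i ∘ z := by
    ext z₁
    constructor
    · rintro ⟨y₁, hy₁, hr⟩
      exact image σ hI φ hφ hε hε1 hy hyz hy₁ hr
    · intro hz₁
      obtain ⟨y₁, hr⟩ := rel_exists ψ (RingHom.id K) hz₁.1
      have hy₁ := image σ hI ψ hψ hε hε1 hz hzy hz₁ hr
      exact ⟨y₁, hy₁, rel_inv ψ φ h2 _ hz₁.1 hr hy₁.1⟩
  rw [hset]

end Pool.Agent.Q285.PG.BA
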