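import Pool.Agent.Q44.PG.Stm

/-! # Project PG, job MA: the local closures have finitely many images -/

set_option autoImplicit false

namespace Pool.Agent.Q285.PG.MA

open MvPolynomial Pool.Agent.Q44.SA Pool.Agent.Q44.PG Pool.Agent.Q190.SA

theorem im_top {K : Type} [Field K] {n : ℕ} {I : Ideal (MvPolynomial (Fin n) K)} (φ : Mor I) : Im φ ⊤ = ⊤ := by
  unfold Im
  rw [iInf_eq_top]
  intro l
  exact Ideal.comap_top

theorem van_empty {K : Type} [Field K] {n : ℕ} : Van (∅ : Set (Fin n → K)) = ⊤ := by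
  rw [eq_top_iff]
  intro f _ y hy
  exact absurd hy (Set.notMem_empty y)

theorem main (h1 : P_van) (h2 : P_comp) (h3 : P_fin) (h4 : P_cl) (h5 : P_ball) (h6 : P_clos) : P_main := by
  intro K _ _ n I hI S _ φ ψ hl hr r L _ _ _ σ hφ hψ x hx
  obtain ⟨ε, hε, hε1, hcl⟩ := h6 K n r L σ I x hx
  obtain ⟨A, hA, hcov⟩ := h3 K n r L σ I ε hε
  obtain ⟨-, hcl2⟩ := h4 K n r L σ I ε hε
  obtain ⟨𝒥, h𝒥⟩ : ∃ 𝒥 : Set (Ideal (MvPolynomial (Fin n) K)), 𝒥 = {⊤} ∪ (fun a => Van (Ball σ I ε fun i => σ i ∘ a)) '' (A : Set (Fin n → K)) :=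
    ⟨_, rfl⟩
  -- balls of rational points
  have hball : ∀ z, Pt (RingHom.id K) I z → Van (Ball σ I ε fun i => σ i ∘ z) ∈ 𝒥 := by
    intro z hz
    obtain ⟨a, ha, hza⟩ := hcov z hz
    rw [h𝒥]
    refine Or.inr ⟨a, ha, ?_⟩
    have h7 : z ∈ Ball σ I ε fun i => σ i ∘ a := ⟨hz, hza⟩
    show Van (Ball σ I ε fun i => σ i ∘ a) = _
    rw [hcl2 _ z h7]
  have hfin : 𝒥.Finite := by
    rw [h𝒥]
    exact (Set.finite_singleton _).union (A.finite_toSet.image _)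
  have hvan : ∀ J ∈ 𝒥, ∃ Y : Set (Fin n → K), (∀ y ∈ Y, Pt (RingHom.id K) I y) ∧ J = Van Y := by
    intro J hJ
    rw [h𝒥] at hJ
    rcases hJ with hJ | ⟨a, -, rfl⟩
    · refine ⟨∅, fun y hy => absurd hy (Set.notMem_empty y), ?_⟩
      rw [van_empty]
      exact hJ
    · exact ⟨_, fun y hy => hy.1, rfl⟩
  have hone : ∀ (α β : Mor I), LeftInv β α → LeftInv α β → (∀ i, GoodM α (σ i)) → (∀ i, GoodM β (σ i)) → ∀ J' ∈ 𝒥, Im α J' ∈ 𝒥 := by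
    intro α β hab hba hα hβ J' hJ'
    rw [h𝒥] at hJ'
    rcases hJ' with hJ | ⟨a, ha, rfl⟩
    · have h7 : J' = ⊤ := hJ
      rw [h7, im_top, h𝒥]
      exact Or.inl rfl
    · obtain ⟨z, hz⟩ := rel_exists α (RingHom.id K) (hA a ha)
      have h7 := h5 K n r L σ I hI α β hab hba hα hβ ε hε hε1 a z (hA a ha) hz
      show Im α (Van (Ball σ I ε fun i => σ i ∘ a)) ∈ 𝒥
      rw [h7]
      exact hball z (rel_pt hI α _ (hA a ha) hz)
  have hst : ∀ s, ∀ J' ∈ 𝒥, Im (φ s) J' ∈ 𝒥 ∧ Im (ψ s) J' ∈ 𝒥 := fun s J' hJ' =>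
    ⟨hone (φ s) (ψ s) (hl s) (hr s) (hφ s) (hψ s) J' hJ', hone (ψ s) (φ s) (hr s) (hl s) (hψ s) (hφ s) J' hJ'⟩
  have hmem : Clos σ I x ∈ 𝒥 := by
    rw [hcl]
    rcases Set.eq_empty_or_nonempty (Ball σ I ε x) with he | ⟨y, hy⟩
    · rw [he, van_empty, h𝒥]
      exact Or.inl rfl
    · rw [hcl2 x y hy]
      exact hball y hy.1
  refine ⟨⟨𝒥, hfin, hmem, hst⟩, h2 K n I hI S φ ψ hl hr 𝒥 hfin hvan hst _ hmem, ?_⟩
  rw [Ideal.sInf_minimalPrimes, hcl]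
  exact (h1 K n I hI _ fun y hy => hy.1).2.1.symm

end Pool.Agent.Q285.PG.MA
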